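import Pool.Agent.Y499.HC.Stm

/-!
# The lengths of the great semicircles in the collar (`T_CURVE`)
-/

set_option autoImplicit false

open Real Set MeasureTheory Metric

namespace Pool.Agent.Z932.HC

open Pool.Agent.Y499.HC

section

variable {α : ℝ}

theorem pos_C (hα : α ∈ Ioo 0 (π / 2)) (t : ℝ) : 0 < 1 - (Real.sin α * Real.sin t) ^ 2 := by
  have hc : 0 < Real.cos α := cos_pos_of_mem_Ioo ⟨by linarith [hα.1, pi_pos], hα.2⟩
  have h1 := sin_sq_add_cos_sq α
  have h2 := sin_sq_add_cos_sq t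
  have h3 : 0 ≤ Real.sin α ^ 2 * Real.cos t ^ 2 := by positivity
  have h4 : 1 - (Real.sin α * Real.sin t) ^ 2 =
      Real.cos α ^ 2 + Real.sin α ^ 2 * Real.cos t ^ 2 := by
    linear_combination -h1 - Real.sin α ^ 2 * h2
  rw [h4]
  positivity

theorem C_sq (hα : α ∈ Ioo 0 (π / 2)) (t : ℝ) :
    C α t ^ 2 = 1 - (Real.sin α * Real.sin t) ^ 2 := Real.sq_sqrt (pos_C hα t).le

theorem C_pos (hα : α ∈ Ioo 0 (π / 2)) (t : ℝ) : 0 < C α t := Real.sqrt_pos.2 (pos_C hα t)

theorem hasDerivAt_w (α t : ℝ) :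
    HasDerivAt (fun t => Real.sin α * Real.sin t) (Real.sin α * Real.cos t) t :=
  (hasDerivAt_sin t).const_mul _

theorem w_ne (hα : α ∈ Ioo 0 (π / 2)) (t : ℝ) :
    Real.sin α * Real.sin t ≠ -1 ∧ Real.sin α * Real.sin t ≠ 1 := by
  have h := pos_C hα t
  constructor
  · intro h1
    rw [h1] at h
    norm_num at h
  · intro h1
    rw [h1] at h
    norm_num at h

theorem hasDerivAt_S (hα : α ∈ Ioo 0 (π / 2)) (t : ℝ) :
    HasDerivAt (S α) (Real.sin α * Real.cos t / C α t) t := by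
  have h1 := (Real.hasDerivAt_arcsin (w_ne hα t).1 (w_ne hα t).2).comp t (hasDerivAt_w α t)
  refine h1.congr_deriv ?_
  unfold C
  ring

theorem hasDerivAt_C (hα : α ∈ Ioo 0 (π / 2)) (t : ℝ) :
    HasDerivAt (C α) (-(Real.sin α ^ 2 * Real.sin t * Real.cos t) / C α t) t := by
  have h1 : HasDerivAt (fun t => 1 - (Real.sin α * Real.sin t) ^ 2)
      (-(2 * (Real.sin α * Real.sin t) * (Real.sin α * Real.cos t))) t := by
    have h2 := ((hasDerivAt_w α t).pow 2).const_sub 1
    refine h2.congr_deriv ?_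
    push_cast
    ring
  have h3 := h1.sqrt (pos_C hα t).ne'
  refine h3.congr_deriv ?_
  unfold C
  have h4 : √(1 - (Real.sin α * Real.sin t) ^ 2) ≠ 0 := (C_pos hα t).ne'
  field_simp

theorem hasDerivAt_p (hα : α ∈ Ioo 0 (π / 2)) (t : ℝ) :
    HasDerivAt (fun t => Real.cos t / C α t)
      (Real.cos α / C α t ^ 2 * (-(Real.cos α * Real.sin t / C α t))) t := by
  have h0 := (C_pos hα t).ne'
  have h1 := (hasDerivAt_cos t).div (hasDerivAt_C hα t) h0
  refine h1.congr_deriv ?_
  have h2 := C_sq hα t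
  have h3 := sin_sq_add_cos_sq α
  have h4 := sin_sq_add_cos_sq t
  field_simp
  rw [h2]
  linear_combination (Real.sin t * Real.sin α ^ 2) * h4 + Real.sin t * h3

theorem hasDerivAt_q (hα : α ∈ Ioo 0 (π / 2)) (t : ℝ) :
    HasDerivAt (fun t => Real.cos α * Real.sin t / C α t)
      (Real.cos α / C α t ^ 2 * (Real.cos t / C α t)) t := by
  have h0 := (C_pos hα t).ne'
  have h1 := ((hasDerivAt_sin t).const_mul (Real.cos α)).div (hasDerivAt_C hα t) h0
  refine h1.congr_deriv ?_
  have h2 := C_sq hα t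
  field_simp
  rw [h2]
  ring

theorem contDiff_w (α : ℝ) : ContDiff ℝ 1 (fun t => Real.sin α * Real.sin t) :=
  contDiff_const.mul Real.contDiff_sin

theorem contDiff_S (hα : α ∈ Ioo 0 (π / 2)) : ContDiff ℝ 1 (S α) :=
  contDiff_iff_contDiffAt.2 fun t =>
    (Real.contDiffAt_arcsin (w_ne hα t).1 (w_ne hα t).2).comp t (contDiff_w α).contDiffAt

theorem contDiff_C (hα : α ∈ Ioo 0 (π / 2)) : ContDiff ℝ 1 (C α) :=
  (contDiff_const.sub ((contDiff_w α).pow 2)).sqrt fun t => (pos_C hα t).ne'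

end

theorem t_CURVE : T_CURVE := by
  intro d hd m _ hNS α hα b
  have h01 : (0 : Fin (d + 1)) ≠ 1 := by
    intro h
    have h1 := congrArg Fin.val h
    rw [Fin.val_zero, Fin.val_one'] at h1
    rw [Nat.mod_eq_of_lt (by omega)] at h1
    omega
  have hn0 : ‖b.1 0‖ = 1 := b.2.norm_eq_one 0
  have hn1 : ‖b.1 1‖ = 1 := b.2.norm_eq_one 1
  have hin : inner ℝ (b.1 0) (b.1 1) = 0 := b.2.inner_eq_zero h01
  have hy : ∀ t, HasDerivAt (fun τ => (Real.cos τ / C α τ) • b.1 0 +
      (Real.cos α * Real.sin τ / C α τ) • b.1 1)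
      ((Real.cos α / C α t ^ 2) • ((-(Real.cos α * Real.sin t / C α t)) • b.1 0 +
        (Real.cos t / C α t) • b.1 1)) t := by
    intro t
    have h1 := ((hasDerivAt_p hα t).smul_const (b.1 0)).add
      ((hasDerivAt_q hα t).smul_const (b.1 1))
    refine h1.congr_deriv ?_
    rw [smul_add, smul_smul, smul_smul]
  have hyc : ContDiff ℝ 1 (fun τ => (Real.cos τ / C α τ) • b.1 0 +
      (Real.cos α * Real.sin τ / C α τ) • b.1 1) := by
    have h0 : ∀ t, C α t ≠ 0 := fun t => (C_pos hα t).ne'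
    exact ((Real.contDiff_cos.div (contDiff_C hα) h0).smul contDiff_const).add
      (((contDiff_const.mul Real.contDiff_sin).div (contDiff_C hα) h0).smul contDiff_const)
  have hC0 : C α 0 = 1 := by
    unfold C
    simp
  have hCπ : C α π = 1 := by
    unfold C
    simp
  have hmain := hNS π (S α) _ pi_pos (contDiff_S hα) hyc ?_ ?_ ?_ ?_ ?_
  · refine hmain.trans (le_of_eq ?_)
    refine intervalIntegral.integral_congr fun t _ => ?_
    rw [(hasDerivAt_S hα t).deriv, (hy t).deriv]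
  · intro t ht
    have hs : 0 < Real.sin α := sin_pos_of_pos_of_lt_pi hα.1 (by linarith [hα.2, pi_pos])
    have hst : 0 ≤ Real.sin t := sin_nonneg_of_nonneg_of_le_pi ht.1 ht.2
    constructor
    · exact Real.arcsin_nonneg.2 (mul_nonneg hs.le hst)
    · apply Real.arcsin_lt_pi_div_two.2
      have h := pos_C hα t
      by_contra hc
      push Not at hc
      nlinarith
  · intro t
    rw [mem_sphere_zero_iff_norm]
    have h1 : ‖(Real.cos t / C α t) • b.1 0 + (Real.cos α * Real.sin t / C α t) • b.1 1‖ ^ 2 =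
        1 ^ 2 := by
      rw [norm_add_sq_real, inner_smul_left, inner_smul_right, hin, norm_smul, norm_smul, hn0, hn1,
        mul_pow, mul_pow, Real.norm_eq_abs, Real.norm_eq_abs, sq_abs, sq_abs]
      have h0 := (C_pos hα t).ne'
      have h2 := C_sq hα t
      have h3 := sin_sq_add_cos_sq α
      have h4 := sin_sq_add_cos_sq t
      simp only [mul_zero, add_zero, one_pow, mul_one]
      field_simp
      rw [h2]
      linear_combination (Real.sin t ^ 2) * h3 + h4
    exact (sq_eq_sq₀ (norm_nonneg _) zero_le_one).1 h1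
  · unfold S
    simp
  · unfold S
    simp
  · simp only [hC0, hCπ]
    simp

end Pool.Agent.Z932.HC
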